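import Mathlib
import Pool.Agent.R440.Z2

/-!
# The Lenstra sequence is 2-adically integral

Put `y_n = n x_n`, so that `y_{n+1} = y_n (n² + y_n)/n²` and
`1/y_{n+1} = 1/y_n - 1/(n² + y_n)`.  The 2-adic behaviour is self-similar: if
`y_{2^k} = 2^(2k-2) · unit` (`k ≥ 8`) then `y_{2^{k+1}} = 2^(2k) · unit`, and `4^(k-2)` divides
`y_n` for `2^k < n ≤ 2^(k+1)`.  This is shown by following `y_n` through the multiples
`n = s 2^(k-3)`, `s = 8, ..., 16`; the steps in between change `4^(k-3)/y_n` by `-4` modulo `32`.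
The start (`n ≤ 256`) is a finite computation.
-/

set_option autoImplicit false

namespace Pool.Agent.Results.MP_d9e015_nt.AllTwoAdic

open Finset Pool.Agent.R440

/-- The Lenstra sequence: `x_0 = 1`, `x_n = (1 + x_0² + ... + x_{n-1}²)/n`. -/
def IsLenstra (x : ℕ → ℚ) : Prop :=
  x 0 = 1 ∧ ∀ n, 1 ≤ n → x n = (1 + ∑ i ∈ range n, x i ^ 2) / n

variable {x : ℕ → ℚ}

theorem pos (hx : IsLenstra x) (n : ℕ) : 0 < x n := by
  rcases Nat.eq_zero_or_pos n with rfl | hn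
  · rw [hx.1]; norm_num
  · rw [hx.2 n hn]
    have : (0 : ℚ) ≤ ∑ i ∈ range n, x i ^ 2 := sum_nonneg fun i _ => sq_nonneg _
    positivity

theorem one (hx : IsLenstra x) : x 1 = 2 := by
  rw [hx.2 1 le_rfl]
  simp [hx.1]
  norm_num

theorem rec (hx : IsLenstra x) {n : ℕ} (hn : 1 ≤ n) :
    ((n : ℚ) + 1) * x (n + 1) = x n * (x n + n) := by
  have h1 := hx.2 n hn
  have h2 := hx.2 (n + 1) (by omega)
  rw [sum_range_succ] at h2
  have hn0 : (n : ℚ) ≠ 0 := by exact_mod_cast (by omega : n ≠ 0)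
  have hn1 : (n : ℚ) + 1 ≠ 0 := by positivity
  rw [h2]
  push_cast
  field_simp
  rw [eq_div_iff hn0] at h1
  linear_combination -h1

/-- `y_n = n x_n` -/
def y (x : ℕ → ℚ) (n : ℕ) : ℚ := n * x n

theorem y_pos (hx : IsLenstra x) {n : ℕ} (hn : 1 ≤ n) : 0 < y x n := by
  have := pos hx n
  have : (0 : ℚ) < n := by exact_mod_cast hn
  rw [y]; positivity

theorem y_rec (hx : IsLenstra x) {n : ℕ} (hn : 1 ≤ n) :
    y x (n + 1) = y x n * (n ^ 2 + y x n) / n ^ 2 := by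
  have h := rec hx hn
  have hn0 : (n : ℚ) ≠ 0 := by exact_mod_cast (by omega : n ≠ 0)
  rw [y, y]
  push_cast
  rw [h]
  field_simp
  ring

theorem z_rec (hx : IsLenstra x) {n : ℕ} (hn : 1 ≤ n) :
    1 / y x n - 1 / y x (n + 1) = 1 / (n ^ 2 + y x n) := by
  have h1 := y_pos hx hn
  have hn0 : (0 : ℚ) < n := by exact_mod_cast hn
  rw [y_rec hx hn]
  have h2 : (n : ℚ) ^ 2 + y x n ≠ 0 := by positivity
  field_simp
  ring

/-- multiples of `2^e` in `Z2` -/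
def Dv (e : ℕ) (q : ℚ) : Prop := ∃ r ∈ Z2, q = 2 ^ e * r

theorem two_pow_mem (e : ℕ) : (2 : ℚ) ^ e ∈ Z2 := Z2.pow_mem (Z2.num_mem 2) e

theorem Dv.mem {e : ℕ} {q : ℚ} (h : Dv e q) : q ∈ Z2 := by
  obtain ⟨r, hr, rfl⟩ := h
  exact Z2.mul_mem (two_pow_mem e) hr

theorem Dv.mono {e f : ℕ} {q : ℚ} (h : Dv e q) (hf : f ≤ e) : Dv f q := by
  obtain ⟨r, hr, rfl⟩ := h
  obtain ⟨g, rfl⟩ := Nat.exists_eq_add_of_le hf
  exact ⟨2 ^ g * r, Z2.mul_mem (two_pow_mem g) hr, by rw [pow_add]; ring⟩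

theorem Dv.mul {e : ℕ} {q r : ℚ} (h : Dv e q) (hr : r ∈ Z2) : Dv e (q * r) := by
  obtain ⟨a, ha, rfl⟩ := h
  exact ⟨a * r, Z2.mul_mem ha hr, by ring⟩

/-- dividing by a natural number with few factors `2` -/
theorem Dv.div_nat {e v o : ℕ} {q : ℚ} (h : Dv e q) (hv : v ≤ e) (ho : ¬ 2 ∣ o) :
    Dv (e - v) (q / ((2 ^ v * o : ℕ) : ℚ)) := by
  obtain ⟨a, ha, rfl⟩ := h
  refine ⟨a * (o : ℚ)⁻¹, Z2.mul_mem ha (Z2.inv_nat_mem ho), ?_⟩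
  have h2 : (2 : ℚ) ^ e = 2 ^ (e - v) * 2 ^ v := by rw [← pow_add]; congr 1; omega
  rw [h2]
  have ho0 : (o : ℚ) ≠ 0 := by
    intro h0
    have : o = 0 := by exact_mod_cast h0
    exact ho (by simp [this])
  push_cast
  field_simp

theorem odd_sq {o : ℕ} (ho : ¬ 2 ∣ o) : ∃ a ∈ Z2, ((o : ℚ)) ^ 2 = 1 + 8 * a := by
  obtain ⟨b, rfl⟩ : ∃ b, o = 2 * b + 1 := ⟨o / 2, by omega⟩
  obtain ⟨c, hc⟩ : ∃ c, b * (b + 1) = 2 * c := by
    have := Nat.even_mul_succ_self b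
    obtain ⟨c, hc⟩ := this
    exact ⟨c, by omega⟩
  refine ⟨(c : ℚ), Z2.nat_mem c, ?_⟩
  have hc' : (b : ℚ) * (b + 1) = 2 * c := by exact_mod_cast hc
  push_cast
  linear_combination 4 * hc'

/-- all `y_j` after the start of an interval of length `2^K` stay divisible by `4^(K+1)` -/
theorem stay (hx : IsLenstra x) {K m : ℕ} (hm : 2 ^ K ∣ m) (h : Dv (2 * K + 2) (y x (m + 1))) :
    ∀ i, i < 2 ^ K → Dv (2 * K + 2) (y x (m + 1 + i)) := by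
  intro i
  induction i with
  | zero => intro _; exact h
  | succ i ih =>
    intro hi
    have h1 := ih (by omega)
    rw [show m + 1 + (i + 1) = (m + 1 + i) + 1 by ring, y_rec hx (by omega)]
    obtain ⟨v, o, ho, hj⟩ := Nat.exists_eq_two_pow_mul_odd (n := m + 1 + i) (by omega)
    have ho2 : ¬ 2 ∣ o := by
      rw [← even_iff_two_dvd]; exact Nat.not_even_iff_odd.mpr ho
    have hv : v < K := by
      by_contra hcon
      have h2 : 2 ^ K ∣ m + 1 + i := by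
        rw [hj]; exact (pow_dvd_pow 2 (by omega)).trans (dvd_mul_right _ _)
      have h3 : 2 ^ K ∣ 1 + i := by
        have := (Nat.dvd_add_right hm).mp (by rwa [add_assoc] at h2)
        exact this
      have := Nat.le_of_dvd (by omega) h3
      omega
    set Y := y x (m + 1 + i) with hY
    set n := m + 1 + i with hn
    have hn0 : (n : ℚ) ≠ 0 := by exact_mod_cast (by omega : n ≠ 0)
    have e1 : Y * ((n : ℚ) ^ 2 + Y) / (n : ℚ) ^ 2 = Y * (1 + Y / (n : ℚ) / (n : ℚ)) := by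
      field_simp
    rw [e1]
    refine h1.mul (Z2.add_mem Z2.one_mem ?_)
    rw [hj]
    have d1 := h1.div_nat (v := v) (o := o) (by omega) ho2
    have d2 := d1.div_nat (v := v) (o := o) (by omega) ho2
    exact d2.mem

/-- the change of `4^K/y` over the interior of an interval of length `2^K` is `4` modulo `32` -/
theorem small (hx : IsLenstra x) : ∀ (K : ℕ), 1 ≤ K → ∀ m, 2 ^ K ∣ m →
    (∀ i, i < 2 ^ K → Dv (2 * K + 2) (y x (m + 1 + i))) →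
    ∃ ρ ∈ Z2, 4 ^ K * (1 / y x (m + 1) - 1 / y x (m + 2 ^ K)) = 4 + 32 * ρ := by
  intro K hK
  induction K, hK using Nat.le_induction with
  | base =>
    intro m hm h
    have hodd : ¬ 2 ∣ m + 1 := by
      have : 2 ∣ m := by simpa using hm
      omega
    obtain ⟨a, ha, hsq⟩ := odd_sq hodd
    obtain ⟨b, hb, hy⟩ := h 0 (by norm_num)
    rw [show m + 2 ^ 1 = m + 1 + 1 by norm_num, z_rec hx (by omega), hsq]
    rw [add_zero] at hy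
    rw [hy]
    have hu := Z2.unit_ne (a := 4 * a + 8 * b)
      (Z2.add_mem (Z2.mul_mem (Z2.num_mem 4) ha) (Z2.mul_mem (Z2.num_mem 8) hb))
    refine ⟨-(a + 2 * b) / (1 + 2 * (4 * a + 8 * b)), Z2.div_unit
      (Z2.neg_mem (Z2.add_mem ha (Z2.mul_mem (Z2.num_mem 2) hb)))
      (Z2.add_mem (Z2.mul_mem (Z2.num_mem 4) ha) (Z2.mul_mem (Z2.num_mem 8) hb)), ?_⟩
    have hu2 : 1 + 8 * a + 2 ^ (2 * 1 + 2) * b ≠ 0 := by
      intro h0; apply hu; rw [← h0]; norm_num; ring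
    field_simp
    ring
  | succ K hK ih =>
    intro m hm h
    have hm' : 2 ^ K ∣ m := (pow_dvd_pow 2 (by omega)).trans hm
    have hp : 0 < 2 ^ K := by positivity
    have hp2 : 2 ^ (K + 1) = 2 ^ K + 2 ^ K := by rw [pow_succ]; ring
    obtain ⟨ρ1, h1, e1⟩ := ih m hm' (fun i hi => (h i (by omega)).mono (by omega))
    obtain ⟨ρ3, h3, e3⟩ := ih (m + 2 ^ K) (Dvd.dvd.add hm' dvd_rfl) (fun i hi => by
      have := (h (i + 2 ^ K) (by omega)).mono (show 2 * K + 2 ≤ 2 * (K + 1) + 2 by omega)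
      rwa [show m + 1 + (i + 2 ^ K) = m + 2 ^ K + 1 + i by ring] at this)
    -- the middle term
    obtain ⟨t, ht⟩ := hm
    have hmid : m + 2 ^ K = 2 ^ K * (2 * t + 1) := by rw [ht, pow_succ]; ring
    obtain ⟨a, ha, hsq⟩ := odd_sq (o := 2 * t + 1) (by omega)
    obtain ⟨b, hb, hy⟩ := h (2 ^ K - 1) (by omega)
    rw [show m + 1 + (2 ^ K - 1) = m + 2 ^ K by omega] at hy
    have hz := z_rec hx (n := m + 2 ^ K) (by omega)
    have hsq2 : (((m + 2 ^ K : ℕ) : ℚ)) ^ 2 = 4 ^ K * (1 + 8 * a) := by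
      rw [hmid, ← hsq]
      push_cast
      rw [show (4 : ℚ) = 2 ^ 2 by norm_num, ← pow_mul]
      ring
    rw [hsq2, hy] at hz
    have hy2 : (2 : ℚ) ^ (2 * (K + 1) + 2) = 4 ^ K * 16 := by
      rw [show 2 * (K + 1) + 2 = 2 * K + 4 by ring, pow_add, pow_mul]; norm_num
    have hu := Z2.unit_ne (a := 4 * a + 8 * b)
      (Z2.add_mem (Z2.mul_mem (Z2.num_mem 4) ha) (Z2.mul_mem (Z2.num_mem 8) hb))
    have hmem : -(a + 2 * b) / (1 + 2 * (4 * a + 8 * b)) ∈ Z2 := Z2.div_unit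
      (Z2.neg_mem (Z2.add_mem ha (Z2.mul_mem (Z2.num_mem 2) hb)))
      (Z2.add_mem (Z2.mul_mem (Z2.num_mem 4) ha) (Z2.mul_mem (Z2.num_mem 8) hb))
    have e2 : 4 ^ K * (1 / y x (m + 2 ^ K) - 1 / y x (m + 2 ^ K + 1)) =
        1 + 8 * (-(a + 2 * b) / (1 + 2 * (4 * a + 8 * b))) := by
      rw [hy, hz, hy2]
      have hu2 : 1 + 8 * a + 16 * b ≠ 0 := by
        intro h0; apply hu; rw [← h0]; ring
      have h4 : (4 : ℚ) ^ K ≠ 0 := by positivity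
      rw [show (4 : ℚ) ^ K * (1 + 8 * a) + 4 ^ K * 16 * b = 4 ^ K * (1 + 8 * a + 16 * b) by ring,
        show 1 + 2 * (4 * a + 8 * b) = 1 + 8 * a + 16 * b by ring]
      field_simp
      ring
    refine ⟨1 + 4 * ρ1 + (-(a + 2 * b) / (1 + 2 * (4 * a + 8 * b))) + 4 * ρ3, ?_, ?_⟩
    · exact Z2.add_mem (Z2.add_mem (Z2.add_mem Z2.one_mem (Z2.mul_mem (Z2.num_mem 4) h1)) hmem)
        (Z2.mul_mem (Z2.num_mem 4) h3)
    · rw [hp2, ← add_assoc]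
      rw [pow_succ]
      linear_combination 4 * e1 + 4 * e2 + 4 * e3

/-- membership in `Z2` of explicit expressions -/
theorem m2 {a : ℚ} (k : ℕ) [k.AtLeastTwo] (ha : a ∈ Z2) : (OfNat.ofNat k : ℚ) * a ∈ Z2 :=
  Z2.mul_mem (Z2.num_mem k) ha

/-- one step: from `n = s 2^K` to `n = (s+1) 2^K` -/
theorem step (hx : IsLenstra x) {K s : ℕ} (hK : 1 ≤ K) (hs : 1 ≤ s) {Y w : ℚ}
    (hY : y x (s * 2 ^ K) = 4 ^ K * Y) (hw : w ∈ Z2) (hYw : Y * (s ^ 2 + Y) / s ^ 2 = 4 * w) :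
    (∃ ρ ∈ Z2, 4 ^ K / y x ((s + 1) * 2 ^ K) = 1 / (4 * w) - 4 - 32 * ρ) ∧
    ∀ j, s * 2 ^ K < j → j ≤ (s + 1) * 2 ^ K → Dv (2 * K + 2) (y x j) := by
  have hp : 0 < 2 ^ K := by positivity
  have hm1 : 1 ≤ s * 2 ^ K := Nat.mul_pos hs hp
  have hs0 : (s : ℚ) ≠ 0 := by exact_mod_cast (by omega : s ≠ 0)
  have h4 : (4 : ℚ) ^ K ≠ 0 := by positivity
  have h1 : y x (s * 2 ^ K + 1) = 4 ^ K * (4 * w) := by
    rw [y_rec hx hm1, hY, ← hYw]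
    have : ((s * 2 ^ K : ℕ) : ℚ) ^ 2 = s ^ 2 * 4 ^ K := by
      push_cast
      rw [mul_pow, ← pow_mul, mul_comm K 2, pow_mul]
      norm_num
    rw [this]
    field_simp
  have hd : Dv (2 * K + 2) (y x (s * 2 ^ K + 1)) := by
    refine ⟨w, hw, ?_⟩
    rw [h1, pow_add, pow_mul]
    norm_num
    ring
  have hst := stay hx (dvd_mul_left _ _) hd
  refine ⟨?_, ?_⟩
  · obtain ⟨ρ, hρ, e⟩ := small hx K hK (s * 2 ^ K) (dvd_mul_left _ _) hst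
    refine ⟨ρ, hρ, ?_⟩
    have e2 : (s + 1) * 2 ^ K = s * 2 ^ K + 2 ^ K := by ring
    have hw0 : w ≠ 0 := by
      rintro rfl
      have := y_pos hx (n := s * 2 ^ K + 1) (by omega)
      rw [h1] at this
      simp at this
    have e3 : 4 ^ K * (1 / y x (s * 2 ^ K + 1)) = 1 / (4 * w) := by
      rw [h1]
      field_simp
    rw [e2, div_eq_mul_one_div]
    linear_combination e3 - e
  · intro j hj1 hj2
    obtain ⟨i, rfl⟩ := Nat.exists_eq_add_of_le (show s * 2 ^ K + 1 ≤ j by omega)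
    refine hst i ?_
    have : (s + 1) * 2 ^ K = s * 2 ^ K + 2 ^ K := by ring
    omega

/-- invariant at `n = 8 · 2^K = 2^k`, `k = K + 3`: `y_n = 2^(2k-2) · unit` -/
def P (x : ℕ → ℚ) (K : ℕ) : Prop := ∃ v ∈ Z2, y x (8 * 2 ^ K) = 4 ^ K * (16 * (1 + 2 * v))

theorem y_of_inv {Y E : ℚ} {K n : ℕ} (h : 4 ^ K / Y = E) (hY : Y ≠ 0) (_ : n = n) :
    Y = 4 ^ K * (1 / E) := by
  rw [← h]
  have h4 : (4 : ℚ) ^ K ≠ 0 := by positivity
  field_simp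

/-- an odd constant plus an even multiple is a unit -/
theorem ne_of {q a : ℚ} (ha : a ∈ Z2) (h : q = 1 + 2 * a) : q ≠ 0 := by
  rw [h]; exact Z2.unit_ne ha

theorem div_of {b q a : ℚ} (hb : b ∈ Z2) (ha : a ∈ Z2) (h : q = 1 + 2 * a) : b / q ∈ Z2 := by
  rw [h]; exact Z2.div_unit hb ha

theorem s8 (hx : IsLenstra x) {K : ℕ} (hK : 1 ≤ K) {v : ℚ} (hv : v ∈ Z2)
    (hY : y x (8 * 2 ^ K) = 4 ^ K * (16 * (1 + 2 * v))) :
    (∃ a ∈ Z2, y x (9 * 2 ^ K) = 4 ^ K * (4 / (5 + 8 * a))) ∧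
    ∀ j, 8 * 2 ^ K < j → j ≤ 9 * 2 ^ K → Dv (2 * K + 2) (y x j) := by
  obtain ⟨τ, hτ, hττ⟩ := Z2.sq_sub hv
  have hpm : 2 * v + τ ∈ Z2 := Z2.add_mem (m2 2 hv) hτ
  set p := 2 * v + τ with hp
  have hup : (1 + 2 * v) * ((1 + 2 * v) + 4) = 5 + 8 * p := by
    rw [hp]; linear_combination 4 * hττ
  have hw : 5 + 8 * p ∈ Z2 := Z2.add_mem (Z2.num_mem 5) (m2 8 hpm)
  have np : (5 : ℚ) + 8 * p ≠ 0 :=
    ne_of (a := 2 + 4 * p) (Z2.add_mem (Z2.num_mem 2) (m2 4 hpm)) (by ring)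
  obtain ⟨⟨ρ, hρ, E⟩, J⟩ := step hx hK (by norm_num) hY hw (by
    rw [← hup]; push_cast; ring)
  refine ⟨⟨(-3 - 5 * p) / (5 + 8 * p) - 2 - 16 * ρ, ?_, ?_⟩, J⟩
  · exact Z2.sub_mem (Z2.sub_mem (div_of (a := 2 + 4 * p)
      (Z2.sub_mem (Z2.neg_mem (Z2.num_mem 3)) (m2 5 hpm))
      (Z2.add_mem (Z2.num_mem 2) (m2 4 hpm)) (by ring)) (Z2.num_mem 2)) (m2 16 hρ)
  · have hpos := (y_pos hx (n := 9 * 2 ^ K) (Nat.mul_pos (by norm_num) (by positivity))).ne'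
    rw [y_of_inv E hpos (n := 0) rfl]
    have : 1 / (4 * (5 + 8 * p)) - 4 - 32 * ρ =
        (5 + 8 * ((-3 - 5 * p) / (5 + 8 * p) - 2 - 16 * ρ)) / 4 := by
      field_simp
      ring
    rw [this, one_div_div]

theorem s9 (hx : IsLenstra x) {K : ℕ} (hK : 1 ≤ K) {a : ℚ} (ha : a ∈ Z2)
    (hY : y x (9 * 2 ^ K) = 4 ^ K * (4 / (5 + 8 * a))) :
    (∃ t ∈ Z2, y x (10 * 2 ^ K) = 4 ^ K * (4 / (1 + 8 * t))) ∧
    ∀ j, 9 * 2 ^ K < j → j ≤ 10 * 2 ^ K → Dv (2 * K + 2) (y x j) := by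
  have nc : (5 : ℚ) + 8 * a ≠ 0 :=
    ne_of (a := 2 + 4 * a) (Z2.add_mem (Z2.num_mem 2) (m2 4 ha)) (by ring)
  have nd : (409 : ℚ) + 648 * a ≠ 0 :=
    ne_of (a := 204 + 324 * a) (Z2.add_mem (Z2.num_mem 204) (m2 324 ha)) (by ring)
  have ha2 : a ^ 2 ∈ Z2 := Z2.pow_mem ha 2
  have hw : (409 + 648 * a) / (81 * (5 + 8 * a) ^ 2) ∈ Z2 :=
    div_of (a := 1012 + 3240 * a + 2592 * a ^ 2) (Z2.add_mem (Z2.num_mem 409) (m2 648 ha))
      (Z2.add_mem (Z2.add_mem (Z2.num_mem 1012) (m2 3240 ha)) (m2 2592 ha2)) (by ring)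
  obtain ⟨⟨ρ, hρ, E⟩, J⟩ := step hx hK (by norm_num) hY hw (by
    push_cast; field_simp; ring)
  refine ⟨⟨(-616 - 567 * a + 648 * a ^ 2) / (409 + 648 * a) - 16 * ρ, ?_, ?_⟩, J⟩
  · exact Z2.sub_mem (div_of (a := 204 + 324 * a)
      (Z2.add_mem (Z2.sub_mem (Z2.neg_mem (Z2.num_mem 616)) (m2 567 ha)) (m2 648 ha2))
      (Z2.add_mem (Z2.num_mem 204) (m2 324 ha)) (by ring)) (m2 16 hρ)
  · have hpos := (y_pos hx (n := 10 * 2 ^ K) (Nat.mul_pos (by norm_num) (by positivity))).ne'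
    rw [y_of_inv E hpos (n := 0) rfl]
    have : 1 / (4 * ((409 + 648 * a) / (81 * (5 + 8 * a) ^ 2))) - 4 - 32 * ρ =
        (1 + 8 * ((-616 - 567 * a + 648 * a ^ 2) / (409 + 648 * a) - 16 * ρ)) / 4 := by
      field_simp
      ring
    rw [this, one_div_div]

theorem s10 (hx : IsLenstra x) {K : ℕ} (hK : 1 ≤ K) {t : ℚ} (ht : t ∈ Z2)
    (hY : y x (10 * 2 ^ K) = 4 ^ K * (4 / (1 + 8 * t))) :
    (∃ b ∈ Z2, y x (11 * 2 ^ K) = 4 ^ K * (8 / (1 + 4 * b))) ∧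
    ∀ j, 10 * 2 ^ K < j → j ≤ 11 * 2 ^ K → Dv (2 * K + 2) (y x j) := by
  have nc : (1 : ℚ) + 8 * t ≠ 0 := ne_of (a := 4 * t) (m2 4 ht) (by ring)
  have nd : (13 : ℚ) + 100 * t ≠ 0 :=
    ne_of (a := 6 + 50 * t) (Z2.add_mem (Z2.num_mem 6) (m2 50 ht)) (by ring)
  have ht2 : t ^ 2 ∈ Z2 := Z2.pow_mem ht 2
  have hw : 2 * (13 + 100 * t) / (25 * (1 + 8 * t) ^ 2) ∈ Z2 :=
    div_of (a := 12 + 200 * t + 800 * t ^ 2) (m2 2 (Z2.add_mem (Z2.num_mem 13) (m2 100 ht)))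
      (Z2.add_mem (Z2.add_mem (Z2.num_mem 12) (m2 200 ht)) (m2 800 ht2)) (by ring)
  obtain ⟨⟨ρ, hρ, E⟩, J⟩ := step hx hK (by norm_num) hY hw (by
    push_cast; field_simp; ring)
  refine ⟨⟨(-101 - 725 * t + 400 * t ^ 2) / (13 + 100 * t) - 64 * ρ, ?_, ?_⟩, J⟩
  · exact Z2.sub_mem (div_of (a := 6 + 50 * t)
      (Z2.add_mem (Z2.sub_mem (Z2.neg_mem (Z2.num_mem 101)) (m2 725 ht)) (m2 400 ht2))
      (Z2.add_mem (Z2.num_mem 6) (m2 50 ht)) (by ring)) (m2 64 hρ)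
  · have hpos := (y_pos hx (n := 11 * 2 ^ K) (Nat.mul_pos (by norm_num) (by positivity))).ne'
    rw [y_of_inv E hpos (n := 0) rfl]
    have : 1 / (4 * (2 * (13 + 100 * t) / (25 * (1 + 8 * t) ^ 2))) - 4 - 32 * ρ =
        (1 + 4 * ((-101 - 725 * t + 400 * t ^ 2) / (13 + 100 * t) - 64 * ρ)) / 8 := by
      field_simp
      ring
    rw [this, one_div_div]

theorem s11 (hx : IsLenstra x) {K : ℕ} (hK : 1 ≤ K) {b : ℚ} (hb : b ∈ Z2)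
    (hY : y x (11 * 2 ^ K) = 4 ^ K * (8 / (1 + 4 * b))) :
    (∃ a ∈ Z2, y x (12 * 2 ^ K) = 4 ^ K * (8 / (1 + 4 * a))) ∧
    ∀ j, 11 * 2 ^ K < j → j ≤ 12 * 2 ^ K → Dv (2 * K + 2) (y x j) := by
  have nc : (1 : ℚ) + 4 * b ≠ 0 := ne_of (a := 2 * b) (m2 2 hb) (by ring)
  have nd : (129 : ℚ) + 484 * b ≠ 0 :=
    ne_of (a := 64 + 242 * b) (Z2.add_mem (Z2.num_mem 64) (m2 242 hb)) (by ring)
  have hb2 : b ^ 2 ∈ Z2 := Z2.pow_mem hb 2
  have hw : 2 * (129 + 484 * b) / (121 * (1 + 4 * b) ^ 2) ∈ Z2 :=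
    div_of (a := 60 + 484 * b + 968 * b ^ 2) (m2 2 (Z2.add_mem (Z2.num_mem 129) (m2 484 hb)))
      (Z2.add_mem (Z2.add_mem (Z2.num_mem 60) (m2 484 hb)) (m2 968 hb2)) (by ring)
  obtain ⟨⟨ρ, hρ, E⟩, J⟩ := step hx hK (by norm_num) hY hw (by
    push_cast; field_simp; ring)
  refine ⟨⟨(-1034 - 3751 * b + 484 * b ^ 2) / (129 + 484 * b) - 64 * ρ, ?_, ?_⟩, J⟩
  · exact Z2.sub_mem (div_of (a := 64 + 242 * b)
      (Z2.add_mem (Z2.sub_mem (Z2.neg_mem (Z2.num_mem 1034)) (m2 3751 hb)) (m2 484 hb2))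
      (Z2.add_mem (Z2.num_mem 64) (m2 242 hb)) (by ring)) (m2 64 hρ)
  · have hpos := (y_pos hx (n := 12 * 2 ^ K) (Nat.mul_pos (by norm_num) (by positivity))).ne'
    rw [y_of_inv E hpos (n := 0) rfl]
    have : 1 / (4 * (2 * (129 + 484 * b) / (121 * (1 + 4 * b) ^ 2))) - 4 - 32 * ρ =
        (1 + 4 * ((-1034 - 3751 * b + 484 * b ^ 2) / (129 + 484 * b) - 64 * ρ)) / 8 := by
      field_simp
      ring
    rw [this, one_div_div]

theorem s12 (hx : IsLenstra x) {K : ℕ} (hK : 1 ≤ K) {a : ℚ} (ha : a ∈ Z2)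
    (hY : y x (12 * 2 ^ K) = 4 ^ K * (8 / (1 + 4 * a))) :
    (∃ e ∈ Z2, y x (13 * 2 ^ K) = 4 ^ K * (4 / (3 + 32 * e))) ∧
    ∀ j, 12 * 2 ^ K < j → j ≤ 13 * 2 ^ K → Dv (2 * K + 2) (y x j) := by
  obtain ⟨τ, hτ, hττ⟩ := Z2.sq_sub ha
  have nc : (1 : ℚ) + 4 * a ≠ 0 := ne_of (a := 2 * a) (m2 2 ha) (by ring)
  have nd : (19 : ℚ) + 72 * a ≠ 0 :=
    ne_of (a := 9 + 36 * a) (Z2.add_mem (Z2.num_mem 9) (m2 36 ha)) (by ring)
  have ha2 : a ^ 2 ∈ Z2 := Z2.pow_mem ha 2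
  have hw : (19 + 72 * a) / (9 * (1 + 4 * a) ^ 2) ∈ Z2 :=
    div_of (a := 4 + 36 * a + 72 * a ^ 2) (Z2.add_mem (Z2.num_mem 19) (m2 72 ha))
      (Z2.add_mem (Z2.add_mem (Z2.num_mem 4) (m2 36 ha)) (m2 72 ha2)) (by ring)
  obtain ⟨⟨ρ, hρ, E⟩, J⟩ := step hx hK (by norm_num) hY hw (by
    push_cast; field_simp; ring)
  refine ⟨⟨(-11 + 9 * τ - 36 * a) / (19 + 72 * a) - 4 * ρ, ?_, ?_⟩, J⟩
  · exact Z2.sub_mem (div_of (a := 9 + 36 * a)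
      (Z2.sub_mem (Z2.add_mem (Z2.neg_mem (Z2.num_mem 11)) (m2 9 hτ)) (m2 36 ha))
      (Z2.add_mem (Z2.num_mem 9) (m2 36 ha)) (by ring)) (m2 4 hρ)
  · have hpos := (y_pos hx (n := 13 * 2 ^ K) (Nat.mul_pos (by norm_num) (by positivity))).ne'
    rw [y_of_inv E hpos (n := 0) rfl]
    have : 1 / (4 * ((19 + 72 * a) / (9 * (1 + 4 * a) ^ 2))) - 4 - 32 * ρ =
        (3 + 32 * ((-11 + 9 * τ - 36 * a) / (19 + 72 * a) - 4 * ρ)) / 4 := by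
      field_simp
      linear_combination 144 * hττ
    rw [this, one_div_div]

theorem s13 (hx : IsLenstra x) {K : ℕ} (hK : 1 ≤ K) {e : ℚ} (he : e ∈ Z2)
    (hY : y x (13 * 2 ^ K) = 4 ^ K * (4 / (3 + 32 * e))) :
    (∃ f ∈ Z2, y x (14 * 2 ^ K) = 4 ^ K * (4 / (-1 + 32 * f))) ∧
    ∀ j, 13 * 2 ^ K < j → j ≤ 14 * 2 ^ K → Dv (2 * K + 2) (y x j) := by
  have nc : (3 : ℚ) + 32 * e ≠ 0 :=
    ne_of (a := 1 + 16 * e) (Z2.add_mem Z2.one_mem (m2 16 he)) (by ring)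
  have nd : (511 : ℚ) + 5408 * e ≠ 0 :=
    ne_of (a := 255 + 2704 * e) (Z2.add_mem (Z2.num_mem 255) (m2 2704 he)) (by ring)
  have he2 : e ^ 2 ∈ Z2 := Z2.pow_mem he 2
  have hw : (511 + 5408 * e) / (169 * (3 + 32 * e) ^ 2) ∈ Z2 :=
    div_of (a := 760 + 16224 * e + 86528 * e ^ 2) (Z2.add_mem (Z2.num_mem 511) (m2 5408 he))
      (Z2.add_mem (Z2.add_mem (Z2.num_mem 760) (m2 16224 he)) (m2 86528 he2)) (by ring)
  obtain ⟨⟨ρ, hρ, E⟩, J⟩ := step hx hK (by norm_num) hY hw (by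
    push_cast; field_simp; ring)
  refine ⟨⟨(-192 - 1521 * e + 5408 * e ^ 2) / (511 + 5408 * e) - 4 * ρ, ?_, ?_⟩, J⟩
  · exact Z2.sub_mem (div_of (a := 255 + 2704 * e)
      (Z2.add_mem (Z2.sub_mem (Z2.neg_mem (Z2.num_mem 192)) (m2 1521 he)) (m2 5408 he2))
      (Z2.add_mem (Z2.num_mem 255) (m2 2704 he)) (by ring)) (m2 4 hρ)
  · have hpos := (y_pos hx (n := 14 * 2 ^ K) (Nat.mul_pos (by norm_num) (by positivity))).ne'
    rw [y_of_inv E hpos (n := 0) rfl]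
    have : 1 / (4 * ((511 + 5408 * e) / (169 * (3 + 32 * e) ^ 2))) - 4 - 32 * ρ =
        (-1 + 32 * ((-192 - 1521 * e + 5408 * e ^ 2) / (511 + 5408 * e) - 4 * ρ)) / 4 := by
      field_simp
      ring
    rw [this, one_div_div]

theorem s14 (hx : IsLenstra x) {K : ℕ} (hK : 1 ≤ K) {e : ℚ} (he : e ∈ Z2)
    (hY : y x (14 * 2 ^ K) = 4 ^ K * (4 / (-1 + 32 * e))) :
    (∃ f ∈ Z2, y x (15 * 2 ^ K) = 4 ^ K * (64 / (1 + 2 * f))) ∧
    ∀ j, 14 * 2 ^ K < j → j ≤ 15 * 2 ^ K → Dv (2 * K + 2) (y x j) := by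
  have nc : (-1 : ℚ) + 32 * e ≠ 0 :=
    ne_of (a := -1 + 16 * e) (Z2.add_mem (Z2.neg_mem Z2.one_mem) (m2 16 he)) (by ring)
  have nd : (-3 : ℚ) + 98 * e ≠ 0 :=
    ne_of (a := -2 + 49 * e) (Z2.add_mem (Z2.neg_mem (Z2.num_mem 2)) (m2 49 he)) (by ring)
  have he2 : e ^ 2 ∈ Z2 := Z2.pow_mem he 2
  have hw : 16 * (-3 + 98 * e) / (49 * (-1 + 32 * e) ^ 2) ∈ Z2 :=
    div_of (a := 24 - 1568 * e + 25088 * e ^ 2)
      (m2 16 (Z2.add_mem (Z2.neg_mem (Z2.num_mem 3)) (m2 98 he)))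
      (Z2.add_mem (Z2.sub_mem (Z2.num_mem 24) (m2 1568 he)) (m2 25088 he2)) (by ring)
  obtain ⟨⟨ρ, hρ, E⟩, J⟩ := step hx hK (by norm_num) hY hw (by
    push_cast; field_simp; ring)
  refine ⟨⟨(410 - 14161 * e + 25088 * e ^ 2) / (-3 + 98 * e) - 1024 * ρ, ?_, ?_⟩, J⟩
  · exact Z2.sub_mem (div_of (a := -2 + 49 * e)
      (Z2.add_mem (Z2.sub_mem (Z2.num_mem 410) (m2 14161 he)) (m2 25088 he2))
      (Z2.add_mem (Z2.neg_mem (Z2.num_mem 2)) (m2 49 he)) (by ring)) (m2 1024 hρ)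
  · have hpos := (y_pos hx (n := 15 * 2 ^ K) (Nat.mul_pos (by norm_num) (by positivity))).ne'
    rw [y_of_inv E hpos (n := 0) rfl]
    have : 1 / (4 * (16 * (-3 + 98 * e) / (49 * (-1 + 32 * e) ^ 2))) - 4 - 32 * ρ =
        (1 + 2 * ((410 - 14161 * e + 25088 * e ^ 2) / (-3 + 98 * e) - 1024 * ρ)) / 64 := by
      field_simp
      ring
    rw [this, one_div_div]

theorem s15 (hx : IsLenstra x) {K : ℕ} (hK : 1 ≤ K) {f : ℚ} (hf : f ∈ Z2)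
    (hY : y x (15 * 2 ^ K) = 4 ^ K * (64 / (1 + 2 * f))) :
    (∃ g ∈ Z2, y x (16 * 2 ^ K) = 4 ^ K * (64 / (1 + 2 * g))) ∧
    ∀ j, 15 * 2 ^ K < j → j ≤ 16 * 2 ^ K → Dv (2 * K + 2) (y x j) := by
  have nc : (1 : ℚ) + 2 * f ≠ 0 := Z2.unit_ne hf
  have nd : (289 : ℚ) + 450 * f ≠ 0 :=
    ne_of (a := 144 + 225 * f) (Z2.add_mem (Z2.num_mem 144) (m2 225 hf)) (by ring)
  have hf2 : f ^ 2 ∈ Z2 := Z2.pow_mem hf 2
  have hw : 16 * (289 + 450 * f) / (225 * (1 + 2 * f) ^ 2) ∈ Z2 :=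
    div_of (a := 112 + 450 * f + 450 * f ^ 2)
      (m2 16 (Z2.add_mem (Z2.num_mem 289) (m2 450 hf)))
      (Z2.add_mem (Z2.add_mem (Z2.num_mem 112) (m2 450 hf)) (m2 450 hf2)) (by ring)
  obtain ⟨⟨ρ, hρ, E⟩, J⟩ := step hx hK (by norm_num) hY hw (by
    push_cast; field_simp; ring)
  refine ⟨⟨(-37024 - 57375 * f + 450 * f ^ 2) / (289 + 450 * f) - 1024 * ρ, ?_, ?_⟩, J⟩
  · exact Z2.sub_mem (div_of (a := 144 + 225 * f)
      (Z2.add_mem (Z2.sub_mem (Z2.neg_mem (Z2.num_mem 37024)) (m2 57375 hf)) (m2 450 hf2))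
      (Z2.add_mem (Z2.num_mem 144) (m2 225 hf)) (by ring)) (m2 1024 hρ)
  · have hpos := (y_pos hx (n := 16 * 2 ^ K) (Nat.mul_pos (by norm_num) (by positivity))).ne'
    rw [y_of_inv E hpos (n := 0) rfl]
    have : 1 / (4 * (16 * (289 + 450 * f) / (225 * (1 + 2 * f) ^ 2))) - 4 - 32 * ρ =
        (1 + 2 * ((-37024 - 57375 * f + 450 * f ^ 2) / (289 + 450 * f) - 1024 * ρ)) / 64 := by
      field_simp
      ring
    rw [this, one_div_div]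

theorem block (hx : IsLenstra x) {K : ℕ} (hK : 1 ≤ K) (h : P x K) :
    P x (K + 1) ∧ ∀ j, 8 * 2 ^ K < j → j ≤ 16 * 2 ^ K → Dv (2 * K + 2) (y x j) := by
  obtain ⟨v, hv, h8⟩ := h
  obtain ⟨⟨a9, m9, h9⟩, J8⟩ := s8 hx hK hv h8
  obtain ⟨⟨a10, m10, h10⟩, J9⟩ := s9 hx hK m9 h9
  obtain ⟨⟨a11, m11, h11⟩, J10⟩ := s10 hx hK m10 h10
  obtain ⟨⟨a12, m12, h12⟩, J11⟩ := s11 hx hK m11 h11
  obtain ⟨⟨a13, m13, h13⟩, J12⟩ := s12 hx hK m12 h12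
  obtain ⟨⟨a14, m14, h14⟩, J13⟩ := s13 hx hK m13 h13
  obtain ⟨⟨a15, m15, h15⟩, J14⟩ := s14 hx hK m14 h14
  obtain ⟨⟨a16, m16, h16⟩, J15⟩ := s15 hx hK m15 h15
  refine ⟨?_, fun j h1 h2 => ?_⟩
  · have nc : (1 : ℚ) + 2 * a16 ≠ 0 := Z2.unit_ne m16
    refine ⟨-a16 / (1 + 2 * a16), Z2.div_unit (Z2.neg_mem m16) m16, ?_⟩
    rw [show 8 * 2 ^ (K + 1) = 16 * 2 ^ K by rw [pow_succ]; ring, h16, pow_succ]
    field_simp
    ring
  · by_cases c9 : j ≤ 9 * 2 ^ K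
    · exact J8 j h1 c9
    by_cases c10 : j ≤ 10 * 2 ^ K
    · exact J9 j (by omega) c10
    by_cases c11 : j ≤ 11 * 2 ^ K
    · exact J10 j (by omega) c11
    by_cases c12 : j ≤ 12 * 2 ^ K
    · exact J11 j (by omega) c12
    by_cases c13 : j ≤ 13 * 2 ^ K
    · exact J12 j (by omega) c13
    by_cases c14 : j ≤ 14 * 2 ^ K
    · exact J13 j (by omega) c14
    by_cases c15 : j ≤ 15 * 2 ^ K
    · exact J14 j (by omega) c15
    · exact J15 j (by omega) h2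

/-- in a block the `x_j` are 2-adic integers -/
theorem x_mem {K j : ℕ} (hK : 2 ≤ K) (h1 : 1 ≤ j) (h2 : j ≤ 16 * 2 ^ K)
    (h : Dv (2 * K + 2) (y x j)) : x j ∈ Z2 := by
  obtain ⟨v, o, ho, hj⟩ := Nat.exists_eq_two_pow_mul_odd (n := j) (by omega)
  have ho2 : ¬ 2 ∣ o := by
    rw [← even_iff_two_dvd]; exact Nat.not_even_iff_odd.mpr ho
  have hv : v ≤ K + 4 := by
    by_contra hcon
    have h3 : 2 ^ (K + 5) ≤ j := by
      rw [hj]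
      have : 2 ^ (K + 5) ≤ 2 ^ v := Nat.pow_le_pow_right (by norm_num) (by omega)
      have ho1 : 1 ≤ o := by omega
      calc 2 ^ (K + 5) ≤ 2 ^ v := this
        _ = 2 ^ v * 1 := by ring
        _ ≤ 2 ^ v * o := Nat.mul_le_mul_left _ ho1
    have h4 : 2 ^ (K + 5) = 32 * 2 ^ K := by rw [pow_add]; ring
    have : 0 < 2 ^ K := by positivity
    omega
  have hd := h.div_nat (v := v) (o := o) (by omega) ho2
  rw [← hj] at hd
  have hj0 : (j : ℚ) ≠ 0 := by exact_mod_cast (by omega : j ≠ 0)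
  have : y x j / (j : ℚ) = x j := by rw [y]; field_simp
  rw [this] at hd
  exact hd.mem

/-- the state after `n` steps: `x_n = X` modulo `2^e` -/
def Inv (x : ℕ → ℚ) (n X e : ℕ) : Prop := (∀ j ≤ n, x j ∈ Z2) ∧ ∃ r ∈ Z2, x n = X + 2 ^ e * r

/-- the exponent of `2`, with fuel -/
def val : ℕ → ℕ → ℕ
  | 0, _ => 0
  | f + 1, n => if n % 2 = 0 then val f (n / 2) + 1 else 0

/-- an inverse modulo `2^512` (Newton iteration) -/
def newton : ℕ → ℕ → ℕ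
  | 0, _ => 1
  | f + 1, o => (newton f o * (2 + 2 ^ 512 - o * newton f o % 2 ^ 512)) % 2 ^ 512

/-- the checked computation -/
def go : ℕ → ℕ → ℕ → ℕ → Bool
  | 0, n, X, e => n == 256 && X % 128 == 64 && Nat.ble 7 e
  | f + 1, n, X, e =>
    let v := val 10 (n + 1)
    let o := (n + 1) / 2 ^ v
    let X' := (X * (X + n) / 2 ^ v * newton 9 o) % 2 ^ (e - v)
    Nat.ble v e && (n + 1 == 2 ^ v * o) && (o % 2 == 1) &&
      ((n + 1) * X' % 2 ^ e == X * (X + n) % 2 ^ e) && go f (n + 1) X' (e - v)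

theorem inv_succ (hx : IsLenstra x) {n X e v o X' : ℕ} (hn : 1 ≤ n) (h : Inv x n X e)
    (hv : v ≤ e) (ho : n + 1 = 2 ^ v * o) (ho2 : o % 2 = 1)
    (hc : (n + 1) * X' % 2 ^ e = X * (X + n) % 2 ^ e) : Inv x (n + 1) X' (e - v) := by
  obtain ⟨hj, r, hr, hxn⟩ := h
  have hrec := rec hx hn
  -- X (X + n) = (n + 1) X' + 2^e c
  obtain ⟨c, hc⟩ : ∃ c : ℤ, ((X * (X + n) : ℕ) : ℤ) = (((n + 1) * X' : ℕ) : ℤ) + 2 ^ e * c := by
    have h1 : (((n + 1) * X' : ℕ) : ℤ) ≡ ((X * (X + n) : ℕ) : ℤ) [ZMOD ((2 ^ e : ℕ) : ℤ)] := by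
      exact (Int.natCast_modEq_iff).mpr hc
    obtain ⟨c, hc⟩ := h1.dvd
    refine ⟨c, ?_⟩
    push_cast at hc ⊢
    linarith
  have hc' : (X : ℚ) * (X + n) = (n + 1) * X' + 2 ^ e * c := by exact_mod_cast hc
  have ho0 : ¬ 2 ∣ o := by omega
  have hq : ((n : ℚ) + 1) = 2 ^ v * o := by exact_mod_cast ho
  have hoq : (o : ℚ) ≠ 0 := by exact_mod_cast (by omega : o ≠ 0)
  have h2e : (2 : ℚ) ^ e = 2 ^ (e - v) * 2 ^ v := by rw [← pow_add]; congr 1; omega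
  have hnew : x (n + 1) = X' + 2 ^ (e - v) *
      ((c + r * (2 * X + n) + 2 ^ e * r ^ 2) * (o : ℚ)⁻¹) := by
    have hn1 : ((n : ℚ) + 1) ≠ 0 := by positivity
    apply mul_left_cancel₀ hn1
    rw [hrec, hxn]
    have e1 : ((n : ℚ) + 1) * (X' + 2 ^ (e - v) * ((c + r * (2 * X + n) + 2 ^ e * r ^ 2) * (o : ℚ)⁻¹))
        = (n + 1) * X' + 2 ^ (e - v) * 2 ^ v * (c + r * (2 * X + n) + 2 ^ e * r ^ 2) := by
      rw [mul_add]
      congr 1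
      rw [hq]
      field_simp
    rw [e1, ← h2e]
    linear_combination hc'
  have hmem : (c + r * (2 * X + n) + 2 ^ e * r ^ 2) * (o : ℚ)⁻¹ ∈ Z2 :=
    Z2.mul_mem (Z2.add_mem (Z2.add_mem (Z2.int_mem c) (Z2.mul_mem hr (Z2.add_mem
      (Z2.mul_mem (Z2.num_mem 2) (Z2.nat_mem X)) (Z2.nat_mem n))))
      (Z2.mul_mem (two_pow_mem e) (Z2.pow_mem hr 2))) (Z2.inv_nat_mem ho0)
  refine ⟨fun j hjn => ?_, _, hmem, hnew⟩
  rcases Nat.lt_or_ge j (n + 1) with h | h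
  · exact hj j (by omega)
  · have : j = n + 1 := by omega
    rw [this, hnew]
    exact Z2.add_mem (Z2.nat_mem X') (Z2.mul_mem (two_pow_mem _) hmem)

theorem go_sound (hx : IsLenstra x) : ∀ (f n X e : ℕ), 1 ≤ n → go f n X e = true → Inv x n X e →
    ∃ X' e', Inv x 256 X' e' ∧ X' % 128 = 64 ∧ 7 ≤ e'
  | 0, n, X, e, _, h, hI => by
    simp only [go, Bool.and_eq_true, beq_iff_eq, Nat.ble_eq] at h
    obtain ⟨⟨h1, h2⟩, h3⟩ := h
    subst h1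
    exact ⟨X, e, hI, h2, h3⟩
  | f + 1, n, X, e, hn, h, hI => by
    simp only [go, Bool.and_eq_true, beq_iff_eq, Nat.ble_eq] at h
    obtain ⟨⟨⟨⟨h1, h2⟩, h3⟩, h4⟩, h5⟩ := h
    exact go_sound hx f (n + 1) _ _ (by omega) h5 (inv_succ hx hn hI h1 h2 h3 h4)

theorem go_true : go 255 1 2 400 = true := by decide +kernel

theorem base (hx : IsLenstra x) : (∀ j ≤ 256, x j ∈ Z2) ∧ P x 5 := by
  have h1 : Inv x 1 2 400 := by
    refine ⟨fun j hj => ?_, 0, Z2.zero_mem, by rw [one hx]; norm_num⟩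
    interval_cases j
    · rw [hx.1]; exact Z2.one_mem
    · rw [one hx]; exact Z2.num_mem 2
  obtain ⟨X, e, hI, hX, he⟩ := go_sound hx 255 1 2 400 le_rfl go_true h1
  obtain ⟨hj, r, hr, hx256⟩ := hI
  refine ⟨hj, ?_⟩
  obtain ⟨q, hq⟩ : ∃ q, X = 128 * q + 64 := ⟨X / 128, by omega⟩
  have hq' : (X : ℚ) = 128 * q + 64 := by exact_mod_cast hq
  have h2e : (2 : ℚ) ^ e = 128 * 2 ^ (e - 7) := by
    rw [show (128 : ℚ) = 2 ^ 7 by norm_num, ← pow_add]; congr 1; omega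
  refine ⟨q + 2 ^ (e - 7) * r, Z2.add_mem (Z2.nat_mem q) (Z2.mul_mem (two_pow_mem _) hr), ?_⟩
  rw [show 8 * 2 ^ 5 = 256 by norm_num, y, hx256, hq', h2e]
  push_cast
  ring

theorem all_P (hx : IsLenstra x) : ∀ K, 5 ≤ K → P x K ∧ ∀ j ≤ 8 * 2 ^ K, x j ∈ Z2 := by
  intro K hK
  induction K, hK using Nat.le_induction with
  | base =>
    obtain ⟨h1, h2⟩ := base hx
    exact ⟨h2, by simpa using h1⟩
  | succ K hK ih =>
    obtain ⟨hP, hj⟩ := ih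
    obtain ⟨hP', hD⟩ := block hx (by omega) hP
    refine ⟨hP', fun j hj2 => ?_⟩
    have e : 8 * 2 ^ (K + 1) = 16 * 2 ^ K := by rw [pow_succ]; ring
    rw [e] at hj2
    by_cases c : j ≤ 8 * 2 ^ K
    · exact hj j c
    · exact x_mem (by omega) (by omega) hj2 (hD j (by omega) hj2)

/-- Q1 holds: every term of the Lenstra sequence has an odd denominator. -/
theorem result (x : ℕ → ℚ) (h0 : x 0 = 1)
    (h : ∀ n, 1 ≤ n → x n = (1 + ∑ i ∈ range n, x i ^ 2) / n) (n : ℕ) : Odd (x n).den := by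
  have hx : IsLenstra x := ⟨h0, h⟩
  have h1 := (all_P hx (n + 5) (by omega)).2 n (by
    have : n < 2 ^ n := Nat.lt_two_pow_self
    have : 2 ^ n ≤ 2 ^ (n + 5) := Nat.pow_le_pow_right (by norm_num) (by omega)
    omega)
  rw [Z2.mem_iff] at h1
  exact Nat.not_even_iff_odd.mp fun h => h1 h.two_dvd

end Pool.Agent.Results.MP_d9e015_nt.AllTwoAdic
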